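import Pool.Agent.Helper93.TCU.SStmt2
import Pool.Agent.Helper32.TN.Met

/-!
# T10, SVP: the virtual pairs in the neighbourhood of a light vertex
-/

set_option autoImplicit false

namespace Pool.TCU

open Pool.TC Pool.TCM Pool.TCS Pool.TCV Finset
open scoped Classical

private theorem svp_num (P : Par) (hN : Num10 P) : 0 < P.eta ∧ 0 < P.delta ∧
    20600 * P.delta ≤ P.eta ^ 3 ∧ P.delta ≤ P.eta := by
  have hX : (10 : ℝ) ^ 20 ≤ (P.X : ℝ) := by
    have := hN.X0
    exact_mod_cast this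
  have hX0 : (0 : ℝ) < P.X := lt_of_lt_of_le (by norm_num) hX
  have hX1 : (1 : ℝ) ≤ P.X := le_trans (by norm_num) hX
  have e1 : (0 : ℝ) < (P.X : ℝ) ^ 1600 := by positivity
  have e2 : (0 : ℝ) < (P.X : ℝ) ^ 4900 := by positivity
  have h3 : (20600 : ℝ) ≤ (P.X : ℝ) ^ 100 := by
    calc (20600 : ℝ) ≤ (P.X : ℝ) := le_trans (by norm_num) hX
      _ = (P.X : ℝ) ^ 1 := (pow_one _).symm
      _ ≤ (P.X : ℝ) ^ 100 := pow_le_pow_right₀ hX1 (by norm_num)
  have h4 : (P.X : ℝ) ^ 4900 = (P.X : ℝ) ^ 100 * ((P.X : ℝ) ^ 1600) ^ 3 := by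
    rw [← pow_mul, ← pow_add]
  have h5 : (P.X : ℝ) ^ 1600 ≤ (P.X : ℝ) ^ 4900 := pow_le_pow_right₀ hX1 (by norm_num)
  refine ⟨?_, ?_, ?_, ?_⟩
  · rw [hN.eta]; positivity
  · rw [hN.delta]; positivity
  · rw [hN.eta, hN.delta, h4]
    have e3 : (0 : ℝ) < ((P.X : ℝ) ^ 1600) ^ 3 := by positivity
    have e4 : (0 : ℝ) < (P.X : ℝ) ^ 100 := by positivity
    rw [div_pow, one_pow, mul_one_div, div_le_div_iff₀ (mul_pos e4 e3) e3]
    nlinarith [mul_le_mul_of_nonneg_right h3 e3.le]
  · rw [hN.eta, hN.delta]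
    exact one_div_le_one_div_of_le e1 h5

/-- the number of virtual neighbours -/
private theorem svp_deg {V κ : Type} [Fintype V] [Fintype κ] (P : Par) (t : Td V κ)
    (hG : GrP P t.toGd) (he : 0 < P.eta) (hd : 0 < P.delta) (w : V) :
    ((univ.filter (fun y => t.vir P w y)).card : ℝ) ≤ 103 * P.delta * P.D / P.eta ^ 2 := by
  have h1 : univ.filter (fun y => t.vir P w y) ⊆
      (univ.filter (fun i => t.hv P i w)).biUnion
        (fun i => univ.filter (fun x => t.hv P i x)) := by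
    intro y hy
    rw [mem_filter] at hy
    obtain ⟨-, -, -, -, i, h2, h3⟩ := hy
    rw [mem_biUnion]
    exact ⟨i, by rw [mem_filter]; exact ⟨mem_univ _, h2⟩, by
      rw [mem_filter]; exact ⟨mem_univ _, h3⟩⟩
  have h2 : ((univ.filter (fun y => t.vir P w y)).card : ℝ) ≤
      ∑ i ∈ univ.filter (fun i => t.hv P i w),
        ((univ.filter (fun x => t.hv P i x)).card : ℝ) := by
    have := le_trans (card_le_card h1) card_biUnion_le
    exact_mod_cast this
  have h3 : ∑ i ∈ univ.filter (fun i => t.hv P i w),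
        ((univ.filter (fun x => t.hv P i x)).card : ℝ) ≤
      ((univ.filter (fun i => t.hv P i w)).card : ℝ) * (103 * P.delta * P.D / P.eta) := by
    rw [← nsmul_eq_mul]
    exact Finset.sum_le_card_nsmul _ _ _ (fun i _ => hG.hv1 i)
  have h4 := hG.hv2 w
  have h5 : (0 : ℝ) ≤ 103 * P.delta * P.D / P.eta := by positivity
  have h6 : ((univ.filter (fun i => t.hv P i w)).card : ℝ) ≤ 1 / P.eta := by
    rw [le_div_iff₀ he, mul_comm]; exact h4
  calc ((univ.filter (fun y => t.vir P w y)).card : ℝ) ≤ _ := le_trans h2 h3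
    _ ≤ 1 / P.eta * (103 * P.delta * P.D / P.eta) := mul_le_mul_of_nonneg_right h6 h5
    _ = 103 * P.delta * P.D / P.eta ^ 2 := by field_simp

theorem thm_SVp : St_SVp := by
  intro P V κ _ _ t hN hB u hA hu
  obtain ⟨he, hd, h3, hde⟩ := svp_num P hN
  have hG := hB.gr
  obtain ⟨hsym, -, -, hsum⟩ := Pool.TN.thm_Met V t.G P.D hG.reg
  set H : Finset V := (nb t.G u).filter (fun w => t.K w = none ∧ ¬ t.A P w) with hH
  have hD0 : (0 : ℝ) ≤ P.D := Nat.cast_nonneg _
  -- the pairs
  have p1 : (((nb t.G u ×ˢ nb t.G u).filter (fun p => t.vir P p.1 p.2)).card : ℝ) ≤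
      (H.card : ℝ) * (103 * P.delta * P.D / P.eta ^ 2) := by
    have h4 : (nb t.G u ×ˢ nb t.G u).filter (fun p => t.vir P p.1 p.2) ⊆
        H.biUnion (fun w => (univ.filter (fun y => t.vir P w y)).image (fun y => (w, y))) := by
      intro p hp
      rw [mem_filter, mem_product] at hp
      rw [mem_biUnion]
      refine ⟨p.1, ?_, ?_⟩
      · rw [hH, mem_filter]
        obtain ⟨-, h5, -, i, h6, -⟩ := hp.2
        exact ⟨hp.1.1, h5, fun h7 => h7.2 i h6⟩
      · rw [mem_image]
        exact ⟨p.2, by rw [mem_filter]; exact ⟨mem_univ _, hp.2⟩, rfl⟩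
    have h5 : (((nb t.G u ×ˢ nb t.G u).filter (fun p => t.vir P p.1 p.2)).card : ℝ) ≤
        ∑ w ∈ H, (((univ.filter (fun y => t.vir P w y)).image (fun y => (w, y))).card : ℝ) := by
      have := le_trans (card_le_card h4) card_biUnion_le
      exact_mod_cast this
    refine le_trans h5 ?_
    rw [← nsmul_eq_mul]
    refine Finset.sum_le_card_nsmul _ _ _ (fun w _ => ?_)
    refine le_trans ?_ (svp_deg P t hG he hd w)
    exact_mod_cast card_image_le
  -- the non-adjacent pairs
  have p2 : (H.card : ℝ) * (P.eta * P.D / 2) ≤ (Pool.TN.npr t.G u : ℝ) := by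
    have h4 : ∑ x ∈ H, Pool.TN.dd t.G u x ≤ Pool.TN.npr t.G u := by
      rw [← hsum u]
      exact Finset.sum_le_sum_of_subset (filter_subset _ _)
    have h5 : (H.card : ℝ) * (P.eta * P.D / 2) ≤ ∑ x ∈ H, (Pool.TN.dd t.G u x : ℝ) := by
      rw [← nsmul_eq_mul]
      refine Finset.card_nsmul_le_sum _ _ _ (fun w hw => ?_)
      rw [hH, mem_filter] at hw
      obtain ⟨-, hw1, hw2⟩ := hw
      have h6 := hG.hvk w hw1 hw2
      rw [hsym u w]
      unfold Pool.TN.dd
      have h7 : (nb t.G w).filter (fun v => t.K v ≠ none) ⊆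
          (Pool.TN.cnb t.G w \ Pool.TN.cnb t.G u) ∪
            (nb t.G u).filter (fun v => t.K v ≠ none) := by
        intro v hv
        rw [mem_filter] at hv
        rw [mem_union, mem_sdiff]
        by_cases hvu : v ∈ nb t.G u
        · exact Or.inr (by rw [mem_filter]; exact ⟨hvu, hv.2⟩)
        · refine Or.inl ⟨by unfold Pool.TN.cnb; exact mem_insert_of_mem hv.1, ?_⟩
          unfold Pool.TN.cnb
          rw [mem_insert]
          rintro (h8 | h8)
          · rw [h8] at hv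
            exact hv.2 hA.1
          · exact hvu h8
      have h8 := le_trans (card_le_card h7) (card_union_le _ _)
      have h9 : (t.dKU w : ℝ) ≤
          ((Pool.TN.cnb t.G w \ Pool.TN.cnb t.G u).card : ℝ) + t.dKU u := by
        unfold Gd.dKU
        exact_mod_cast h8
      have h10 : P.delta * P.D ≤ P.eta * P.D := mul_le_mul_of_nonneg_right hde hD0
      have h11 : 0 ≤ P.eta * P.D := mul_nonneg he.le hD0
      linarith
    refine le_trans h5 ?_
    exact_mod_cast h4
  have p3 : 100 * (103 * P.delta * P.D / P.eta ^ 2) ≤ P.eta * P.D / 2 := by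
    rw [← mul_div_assoc, div_le_div_iff₀ (by positivity) (by norm_num)]
    have := mul_le_mul_of_nonneg_right h3 hD0
    nlinarith
  have p4 : 100 * (((nb t.G u ×ˢ nb t.G u).filter (fun p => t.vir P p.1 p.2)).card : ℝ) ≤
      (Pool.TN.npr t.G u : ℝ) := by
    have h12 := mul_le_mul_of_nonneg_left p3 (Nat.cast_nonneg (α := ℝ) H.card)
    linarith
  exact_mod_cast p4

end Pool.TCU
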